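import Pool.Agent.Q267.W64.Key

/-!
# MP_84b294_nt

The supercongruences modulo `p²` for the sums of `C(-1/4, k)² 64^k` and `C(-1/4, k)² / 64^k`,
for `p = x² + 7y²`.
-/

namespace Pool.Agent.Results.MP_84b294_nt.Full

open Finset

/-- `u ≡ v (mod p²)`: the numerator of `u - v`, in lowest terms, is divisible by `p²`. -/
def Cong (p : ℕ) (u v : ℚ) : Prop := (p : ℤ) ^ 2 ∣ (u - v).num

/-- The generalized binomial coefficient `C(a, k)`. -/
def gb (a : ℚ) (k : ℕ) : ℚ := (∏ j ∈ range k, (a - j)) / k.factorial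

/-- `S₊(p)` -/
def Sp (p : ℕ) : ℚ := ∑ k ∈ range p, gb (-1 / 4) k ^ 2 * 64 ^ k

/-- `S₋(p)` -/
def Sm (p : ℕ) : ℚ := ∑ k ∈ range p, gb (-1 / 4) k ^ 2 * (1 / 64) ^ k

open Pool.Agent.Q267 Pool.Agent.Q267.CDE Pool.Agent.Q267.Seven Q278.PI Pool.Agent.Q267.CDE.Qx
  Pool.Agent.Q261.SC Pool.Agent.Q267.W64

theorem gb_eq (a : ℚ) (k : ℕ) : gb a k = Qx.gb a k := rfl

section

variable (p : ℕ) [hp : Fact p.Prime]

theorem cong_of {r s : ℚ} (a b : O p) (ha : (a : ℚ) = r)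
    (hb : (b : ℚ) = s) (h : res2 p a = res2 p b) : Cong p r s := by
  subst ha hb
  obtain ⟨c, hc⟩ := res2_zero p (a - b) (by rw [map_sub, h, sub_self])
  have hcop : (c : ℚ).den.Coprime p :=
    Nat.Coprime.symm ((Nat.Prime.coprime_iff_not_dvd hp.out).2 c.2)
  have h1 : (a : ℚ) - (b : ℚ) = (p : ℚ) ^ 2 * (c : ℚ) := by
    have h1 := congrArg (Subtype.val) hc
    push_cast at h1
    exact h1
  unfold Cong
  set d : ℚ := (a : ℚ) - (b : ℚ) with hd
  have h2 : d.num * ((c : ℚ).den : ℤ) = (p : ℤ) ^ 2 * ((c : ℚ).num * (d.den : ℤ)) := by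
    have e1 : (d.num : ℚ) = d * d.den := (Rat.mul_den_eq_num d).symm
    have e2 : ((c : ℚ).num : ℚ) = (c : ℚ) * (c : ℚ).den := (Rat.mul_den_eq_num _).symm
    have : ((d.num * ((c : ℚ).den : ℤ) : ℤ) : ℚ) =
        (((p : ℤ) ^ 2 * ((c : ℚ).num * (d.den : ℤ)) : ℤ) : ℚ) := by
      push_cast
      rw [e1, e2, h1]
      ring
    exact_mod_cast this
  have hcop2 : IsCoprime ((p : ℤ) ^ 2) ((c : ℚ).den : ℤ) :=
    (Nat.isCoprime_iff_coprime.mpr hcop.symm).pow_left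
  exact hcop2.dvd_of_dvd_mul_right ⟨_, h2⟩

theorem Sp_coe (h3 : 3 < p) : ((∑ k ∈ range p, gO p k ^ 2 * 64 ^ k : O p) : ℚ) = Sp p := by
  unfold Sp
  have c4 : ((64 : O p) : ℚ) = 64 := rfl
  push_cast
  rw [c4]
  refine sum_congr rfl fun k hk => ?_
  rw [gO_coe p (nd4 p h3) k (mem_range.1 hk), gb_eq]

theorem Sm_coe (h3 : 3 < p) :
    ((∑ k ∈ range p, gO p k ^ 2 * ((invI p 4) ^ 3) ^ k : O p) : ℚ) = Sm p := by
  unfold Sm
  push_cast
  rw [invI_coe p 4 (nd4 p h3)]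
  refine sum_congr rfl fun k hk => ?_
  rw [gO_coe p (nd4 p h3) k (mem_range.1 hk), gb_eq]
  norm_num

omit hp in
theorem nd_mul (hp' : p.Prime) {a b : ℤ} (ha : ¬ (p : ℤ) ∣ a) (hb : ¬ (p : ℤ) ∣ b) :
    ¬ (p : ℤ) ∣ a * b := by
  intro h
  rcases (Nat.prime_iff_prime_int.1 hp').dvd_or_dvd h with h | h
  · exact ha h
  · exact hb h

omit hp in
theorem nd_of (hp' : p.Prime) {x : ℤ} (hx0 : x ≠ 0) (hx : x ^ 2 ≤ p) : ¬ (p : ℤ) ∣ x := by
  intro h
  have h1 := Int.le_of_dvd (by positivity) ((dvd_abs _ _).2 h)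
  have h2 : (p : ℤ) ^ 2 ≤ x ^ 2 := by
    rw [← sq_abs x]
    exact pow_le_pow_left₀ (by positivity) h1 2
  have h3 : (2 : ℤ) ≤ p := by exact_mod_cast hp'.two_le
  nlinarith

/-- the squares modulo eight -/
theorem sq8 (z : ℤ) : (z % 4 = 0 → z ^ 2 % 8 = 0) ∧ (z % 4 = 2 → z ^ 2 % 8 = 4) ∧
    (z % 2 = 1 → z ^ 2 % 8 = 1) := by
  refine ⟨fun h => ?_, fun h => ?_, fun h => ?_⟩
  · obtain ⟨c, hc⟩ : ∃ c, z = 4 * c := ⟨z / 4, by omega⟩
    rw [hc, show (4 * c) ^ 2 = 8 * (2 * c ^ 2) by ring]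
    omega
  · obtain ⟨c, hc⟩ : ∃ c, z = 4 * c + 2 := ⟨z / 4, by omega⟩
    rw [hc, show (4 * c + 2) ^ 2 = 8 * (2 * c ^ 2 + 2 * c) + 4 by ring]
    omega
  · obtain ⟨c, hc⟩ : ∃ c, z = 2 * c + 1 := ⟨z / 2, by omega⟩
    rcases Int.even_or_odd' c with ⟨d, hd | hd⟩
    · rw [hc, hd, show (2 * (2 * d) + 1) ^ 2 = 8 * (2 * d ^ 2 + d) + 1 by ring]
      omega
    · rw [hc, hd, show (2 * (2 * d + 1) + 1) ^ 2 = 8 * (2 * d ^ 2 + 3 * d + 1) + 1 by ring]
      omega

theorem sgn (z : ℤ) (hz : z % 2 = 1) :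
    (z % 4 = 1 ∧ (-1 : ℚ) ^ ((z - 1) / 2) = 1) ∨ (z % 4 = 3 ∧ (-1 : ℚ) ^ ((z - 1) / 2) = -1) := by
  have h : z % 4 = 1 ∨ z % 4 = 3 := by omega
  rcases h with h | h
  · left
    refine ⟨h, ?_⟩
    obtain ⟨c, hc⟩ : ∃ c, (z - 1) / 2 = 2 * c := ⟨(z - 1) / 4, by omega⟩
    rw [hc, zpow_mul]
    norm_num
  · right
    refine ⟨h, ?_⟩
    obtain ⟨c, hc⟩ : ∃ c, (z - 1) / 2 = 2 * c + 1 := ⟨(z - 3) / 4, by omega⟩
    rw [hc, zpow_add₀ (by norm_num), zpow_mul]
    norm_num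

theorem two_leg (hp2 : p ≠ 2) :
    (p % 8 = 1 ∨ p % 8 = 7 → legendreSym p 2 = 1) ∧
    (p % 8 = 3 ∨ p % 8 = 5 → legendreSym p 2 = -1) := by
  rw [legendreSym.at_two hp2, ZMod.χ₈_nat_eq_if_mod_eight]
  constructor
  · intro h
    rw [if_neg (by omega), if_pos h]
  · intro h
    rw [if_neg (by omega), if_neg (by omega)]

/-- the values of the two sums, `p ≡ 1 (mod 4)` -/
theorem core1 (h7 : p ≠ 7) (h4 : p % 4 = 1) (x y : ℤ) (hxy : (p : ℤ) = x ^ 2 + 7 * y ^ 2) :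
    ∃ η : ℤ, (η = 1 ∨ η = -1) ∧ (4 : ℤ) ∣ (x - y) - η ∧
    Cong p (Sp p) ((η : ℚ) * (2 * (x : ℚ) - p / (2 * x))) ∧
    Cong p (Sm p) ((-1) ^ ((p - 1) / 4) * (η : ℚ) * (2 * (x : ℚ) - p / (2 * x))) := by
  have hp2 := hp.out.two_le
  have hp3 : p ≠ 3 := by omega
  obtain ⟨n, hn⟩ : ∃ n, p = 4 * n + 1 := ⟨p / 4, by omega⟩
  have h3 : 3 < p := by omega
  have hx0 : x ≠ 0 := by
    rintro rfl
    have h1 : (p : ℤ) = 7 * y ^ 2 := by rw [hxy]; ring
    have h2 : (7 : ℤ) ∣ p := ⟨y ^ 2, h1⟩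
    have h3' : 7 ∣ p := by exact_mod_cast h2
    rcases (Nat.dvd_prime hp.out).mp h3' with h | h <;> omega
  have hxd : ¬ (p : ℤ) ∣ x := nd_of p hp.out hx0 (by nlinarith [sq_nonneg y])
  have h2x : ¬ (p : ℤ) ∣ 2 * x := nd_mul p hp.out (nd2 p h3) hxd
  have hX := res2_invI p (2 * x) h2x
  push_cast at hX
  have hpm : p = 2 * (2 * n) + 1 := by omega
  obtain ⟨a, η, v, ha, hη, hη4, -, hF⟩ := Fval p (2 * n) hpm h3 h7 x y hxy _ hX
  have hev : ((-1 : R p)) ^ (2 * n) = 1 := by rw [pow_mul]; norm_num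
  rw [hev, one_mul] at hF
  have h64 : 4 * ((a : R p) ^ 4 * (1 - (a : R p) ^ 4)) = 64 := by
    rw [← A4' p _ ha, ← mul_pow, AAb p _ ha]; norm_num
  have vp := G2_sum p 1 n (by omega) (nd2 p h3) (nd4 p h3) (by omega) ((a : R p) ^ 4) 64 h64
  have vm := minus1 p n hn h3 h7 a ha
  refine ⟨η, hη, hη4, ?_, ?_⟩
  · have b1 : (((η : O p) * (2 * (x : O p) - (p : O p) * invI p (2 * x)) : O p) : ℚ) =
        (η : ℚ) * (2 * (x : ℚ) - p / (2 * x)) := by
      have c2 : ((2 : O p) : ℚ) = 2 := rfl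
      push_cast
      rw [c2, invI_coe p _ h2x]
      push_cast
      rw [div_eq_mul_inv]
    refine cong_of p _ _ (Sp_coe p h3) b1 ?_
    simp only [map_sum, map_mul, map_sub, map_pow, map_natCast, map_intCast, map_ofNat]
    rw [vp, hF]
  · have b1 : (((-1) ^ ((p - 1) / 4) * (η : O p) * (2 * (x : O p) - (p : O p) * invI p (2 * x)) :
        O p) : ℚ) = (-1) ^ ((p - 1) / 4) * (η : ℚ) * (2 * (x : ℚ) - p / (2 * x)) := by
      have c2 : ((2 : O p) : ℚ) = 2 := rfl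
      push_cast
      rw [c2, invI_coe p _ h2x]
      push_cast
      rw [div_eq_mul_inv]
    refine cong_of p _ _ (Sm_coe p h3) b1 ?_
    simp only [map_sum, map_mul, map_sub, map_pow, map_natCast, map_intCast, map_ofNat, map_neg,
      map_one]
    rw [vm, hF, show (p - 1) / 4 = n by omega]
    ring

/-- the values of the two sums, `p ≡ 3 (mod 4)` -/
theorem core3 (h7 : p ≠ 7) (h4 : p % 4 = 3) (x y : ℤ) (hxy : (p : ℤ) = x ^ 2 + 7 * y ^ 2)
    (hp3' : p ≠ 3) :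
    ∃ η : ℤ, (η = 1 ∨ η = -1) ∧ (4 : ℤ) ∣ (x - y) - η ∧
    Cong p (Sp p) (-(η : ℚ) * (42 * (y : ℚ) - 3 * p / (2 * y))) ∧
    Cong p (Sm p) ((-1) ^ ((3 * p - 1) / 4) * (η : ℚ) * (3 / 4 * (7 * (y : ℚ) - p / (4 * y)))) := by
  have hp2 := hp.out.two_le
  have h3 : 3 < p := by omega
  obtain ⟨m, hpm⟩ : ∃ m, p = 2 * m + 1 := ⟨p / 2, by omega⟩
  have hm : Odd m := Nat.odd_iff.2 (by omega)
  obtain ⟨n, hn⟩ : ∃ n, 3 * p = 4 * n + 1 := ⟨(3 * p) / 4, by omega⟩
  have hpp := CDE.p_sq p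
  have hx0 : x ≠ 0 := by
    rintro rfl
    have h1 : (p : ℤ) = 7 * y ^ 2 := by rw [hxy]; ring
    have h2 : (7 : ℤ) ∣ p := ⟨y ^ 2, h1⟩
    have h3' : 7 ∣ p := by exact_mod_cast h2
    rcases (Nat.dvd_prime hp.out).mp h3' with h | h <;> omega
  have hy0 : y ≠ 0 := by
    rintro rfl
    have h1 : (p : ℤ) = x ^ 2 := by rw [hxy]; ring
    have h2 : Prime (p : ℤ) := Nat.prime_iff_prime_int.mp hp.out
    rw [h1] at h2
    exact not_prime_pow (by norm_num) h2
  have hxd : ¬ (p : ℤ) ∣ x := nd_of p hp.out hx0 (by nlinarith [sq_nonneg y])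
  have hyd : ¬ (p : ℤ) ∣ y := nd_of p hp.out hy0 (by nlinarith [sq_nonneg x, sq_nonneg y])
  have h2x : ¬ (p : ℤ) ∣ 2 * x := nd_mul p hp.out (nd2 p h3) hxd
  have h2y : ¬ (p : ℤ) ∣ 2 * y := nd_mul p hp.out (nd2 p h3) hyd
  have h4y : ¬ (p : ℤ) ∣ 4 * y := nd_mul p hp.out (nd4 p h3) hyd
  have hX := res2_invI p (2 * x) h2x
  have hY := res2_invI p (2 * y) h2y
  have hY4 := res2_invI p (4 * y) h4y
  have hJ := res2_invI p 4 (nd4 p h3)
  push_cast at hX hY hY4 hJ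
  set X := res2 p (invI p (2 * x)) with hXd
  set Y := res2 p (invI p (2 * y)) with hYd
  set Y4 := res2 p (invI p (4 * y)) with hY4d
  obtain ⟨a, η, v, ha, hη, hη4, hv, hF⟩ := Fval p m hpm h3 h7 x y hxy _ hX
  rw [hm.neg_one_pow] at hF
  have h64 : 4 * ((a : R p) ^ 4 * (1 - (a : R p) ^ 4)) = 64 := by
    rw [← A4' p _ ha, ← mul_pow, AAb p _ ha]; norm_num
  have vp := G2_sum p 3 n (by omega) (nd2 p h3) (nd4 p h3) (by omega) ((a : R p) ^ 4) 64 h64
  have vm := minus3 p hpm hm n hn h3 h7 a ha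
  set A : R p := (a : R p) with hAd
  set J := res2 p (invI p 4) with hJd
  have hA4 := A4 p A ha
  have e16 : A ^ 4 * (1 - A ^ 4) = 16 := by
    rw [← A4' p _ ha, ← mul_pow, AAb p _ ha]; norm_num
  have hL1 : A ^ 4 * ((1 - A ^ 4) * J ^ 2) = 1 := by
    linear_combination J ^ 2 * e16 + (4 * J + 1) * hJ
  have hu4 : IsUnit (A ^ 4) := IsUnit.of_mul_eq_one _ hL1
  have huA : IsUnit A := (isUnit_pow_iff (by norm_num)).mp hu4
  have hred : CDE.red p ((A ^ 4) ^ m) = 1 := by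
    have h0 : CDE.red p A ≠ 0 := (huA.map (CDE.red p)).ne_zero
    rw [← pow_mul, map_pow, show 4 * m = (p - 1) * 2 by omega, pow_mul,
      ZMod.pow_card_sub_one_eq_one h0, one_pow]
  have hhigh := Fl_high p hpm h3 (A ^ 4) _ hL1 hred (Fl_inv p hpm h3 h7 a ha _ hL1)
  rw [show 2 * n = p + m by omega, hhigh] at vp
  -- the constant
  have hd2 : (2 * A - 1) ^ 2 = -7 := by linear_combination 4 * ha
  have hxyR : (p : R p) = x ^ 2 + 7 * y ^ 2 := by
    have := congrArg (Int.cast (R := R p)) hxy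
    push_cast at this
    exact this
  have hpv : (p : R p) * v = p * X := by
    have h1 : 2 * (x : R p) * (p * v) = p := by
      linear_combination (-(x : R p) + y * (2 * A - 1) + p * v) * hv - (y : R p) ^ 2 * hd2 - hxyR
        + v ^ 2 * hpp
    linear_combination X * h1 - (p * v) * hX
  have hdX : (p : R p) * ((2 * A - 1) * X) = -(p * Y) := by
    have h1 : 2 * (y : R p) * (p * ((2 * A - 1) * X)) = -p := by
      linear_combination (2 * p * X) * hv - p * hX + (2 * X * v) * hpp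
    linear_combination Y * h1 - (p * ((2 * A - 1) * X)) * hY
  have hmain : (1 - 2 * A ^ 4) * (2 * (x : R p) - p * X) = 42 * y - 3 * (p * Y) := by
    rw [hA4]
    linear_combination 3 * (2 * (2 * A - 1) * hv - 2 * (y : R p) * hd2 + 2 * (2 * A - 1) * hpv + hdX)
  have hval : (1 - 2 * A ^ 4) * Fl m (A ^ 4) = -(η : R p) * (42 * y - 3 * (p * Y)) := by
    rw [hF]
    linear_combination (-(η : R p)) * hmain
  have hY24 : Y = 2 * Y4 := by
    linear_combination 2 * Y4 * hY - Y * hY4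
  refine ⟨η, hη, hη4, ?_, ?_⟩
  · have b1 : ((-(η : O p) * (42 * (y : O p) - 3 * (p : O p) * invI p (2 * y)) : O p) : ℚ) =
        -(η : ℚ) * (42 * (y : ℚ) - 3 * p / (2 * y)) := by
      have c42 : ((42 : O p) : ℚ) = 42 := rfl
      have c3 : ((3 : O p) : ℚ) = 3 := rfl
      push_cast
      rw [c42, c3, invI_coe p _ h2y]
      push_cast
      rw [div_eq_mul_inv]
    refine cong_of p _ _ (Sp_coe p h3) b1 ?_
    simp only [map_sum, map_mul, map_sub, map_pow, map_natCast, map_intCast, map_ofNat, map_neg]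
    rw [vp, hval]
    ring
  · have b1 : (((-1) ^ ((3 * p - 1) / 4) * (η : O p) * (3 * invI p 4 * (7 * (y : O p) -
        (p : O p) * invI p (4 * y))) : O p) : ℚ) =
        (-1) ^ ((3 * p - 1) / 4) * (η : ℚ) * (3 / 4 * (7 * (y : ℚ) - p / (4 * y))) := by
      have c7 : ((7 : O p) : ℚ) = 7 := rfl
      have c3 : ((3 : O p) : ℚ) = 3 := rfl
      push_cast
      rw [c7, c3, invI_coe p _ h4y, invI_coe p _ (nd4 p h3)]
      push_cast
      rw [div_eq_mul_inv, div_eq_mul_inv]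
    refine cong_of p _ _ (Sm_coe p h3) b1 ?_
    have hu8 : IsUnit (8 : R p) := by
      have h2u : IsUnit (2 : R p) := Ext.unit2 (by omega)
      have : (8 : R p) = 2 ^ 3 := by norm_num
      rw [this]
      exact h2u.pow 3
    apply hu8.mul_left_cancel
    simp only [map_sum, map_mul, map_sub, map_pow, map_natCast, map_intCast, map_ofNat, map_neg,
      map_one]
    rw [vm, hval, show (3 * p - 1) / 4 = n by omega, hY24]
    linear_combination (-(6 * (-1) ^ n * (η : R p) * (7 * (y : R p) - p * Y4))) * hJ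

end

/-- **MP_84b294_nt.** -/
theorem result (p : ℕ) [hp : Fact p.Prime] (hp2 : 2 < p)
    (hp7 : p % 7 = 1 ∨ p % 7 = 2 ∨ p % 7 = 4) (x y : ℤ) (hxy : (p : ℤ) = x ^ 2 + 7 * y ^ 2) :
    (p % 4 = 1 →
      Cong p (Sp p) ((legendreSym p 2 : ℚ) * (-1) ^ ((x - 1) / 2) * (2 * (x : ℚ) - p / (2 * x))) ∧
      Cong p (Sm p) ((-1) ^ ((x - 1) / 2) * (2 * (x : ℚ) - p / (2 * x)))) ∧
    (p % 4 = 3 →
      Cong p (Sp p) ((legendreSym p 2 : ℚ) * (-1) ^ ((y - 1) / 2) *
        (42 * (y : ℚ) - 3 * p / (2 * y))) ∧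
      Cong p (Sm p) (3 / 4 * (-1) ^ ((y - 1) / 2) * (7 * (y : ℚ) - p / (4 * y)))) := by
  have h7 : p ≠ 7 := by omega
  have hp3 : p ≠ 3 := by omega
  obtain ⟨tl1, tl2⟩ := two_leg p (by omega)
  obtain ⟨x0, x2, x1⟩ := sq8 x
  obtain ⟨y0, y2, y1⟩ := sq8 y
  refine ⟨fun h4 => ?_, fun h4 => ?_⟩
  · obtain ⟨η, hη, hη4, c1, c2⟩ := core1 p h7 h4 x y hxy
    have hx : x % 2 = 1 := by
      rcases Int.emod_two_eq_zero_or_one x with h | h
      · exfalso
        rcases Int.emod_two_eq_zero_or_one y with h' | h'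
        · rcases (show x % 4 = 0 ∨ x % 4 = 2 by omega) with a | a <;>
          rcases (show y % 4 = 0 ∨ y % 4 = 2 by omega) with b | b
          · have := x0 a; have := y0 b; omega
          · have := x0 a; have := y2 b; omega
          · have := x2 a; have := y0 b; omega
          · have := x2 a; have := y2 b; omega
        · have := y1 h'
          rcases (show x % 4 = 0 ∨ x % 4 = 2 by omega) with a | a
          · have := x0 a; omega
          · have := x2 a; omega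
      · exact h
    have hy : y % 2 = 0 := by
      have := x1 hx
      rcases Int.emod_two_eq_zero_or_one y with h' | h'
      · exact h'
      · have := y1 h'; omega
    have hx8 := x1 hx
    have hev : p % 8 = 1 → ((-1 : ℚ)) ^ ((p - 1) / 4) = 1 := by
      intro h
      obtain ⟨c, hc⟩ : ∃ c, (p - 1) / 4 = 2 * c := ⟨(p - 1) / 8, by omega⟩
      rw [hc, pow_mul]; norm_num
    have hod : p % 8 = 5 → ((-1 : ℚ)) ^ ((p - 1) / 4) = -1 := by
      intro h
      obtain ⟨c, hc⟩ : ∃ c, (p - 1) / 4 = 2 * c + 1 := ⟨(p - 1) / 8, by omega⟩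
      rw [hc, pow_succ, pow_mul]; norm_num
    have key : (legendreSym p 2 : ℚ) * (-1) ^ ((x - 1) / 2) = (η : ℚ) ∧
        (-1) ^ ((p - 1) / 4) * (η : ℚ) = (-1) ^ ((x - 1) / 2) := by
      rcases (show y % 4 = 0 ∨ y % 4 = 2 by omega) with b | b
      · have hb := y0 b
        have hp8 : p % 8 = 1 := by omega
        have hη' : (η : ℚ) = (-1) ^ ((x - 1) / 2) := by
          rcases sgn x hx with ⟨a1, a2⟩ | ⟨a1, a2⟩ <;> rcases hη with e | e <;> rw [a2, e] <;>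
          first
          | (exfalso; rw [e] at hη4; omega)
          | norm_num
        rw [tl1 (Or.inl hp8), hev hp8, hη']
        norm_num
      · have hb := y2 b
        have hp8 : p % 8 = 5 := by omega
        have hη' : (η : ℚ) = -(-1) ^ ((x - 1) / 2) := by
          rcases sgn x hx with ⟨a1, a2⟩ | ⟨a1, a2⟩ <;> rcases hη with e | e <;> rw [a2, e] <;>
          first
          | (exfalso; rw [e] at hη4; omega)
          | norm_num
        rw [tl2 (Or.inr hp8), hod hp8, hη']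
        norm_num
    rw [key.2] at c2
    rw [key.1]
    exact ⟨c1, c2⟩
  · obtain ⟨η, hη, hη4, c1, c2⟩ := core3 p h7 h4 x y hxy hp3
    have hy : y % 2 = 1 := by
      rcases Int.emod_two_eq_zero_or_one y with h | h
      · exfalso
        rcases Int.emod_two_eq_zero_or_one x with h' | h'
        · rcases (show x % 4 = 0 ∨ x % 4 = 2 by omega) with a | a <;>
          rcases (show y % 4 = 0 ∨ y % 4 = 2 by omega) with b | b
          · have := x0 a; have := y0 b; omega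
          · have := x0 a; have := y2 b; omega
          · have := x2 a; have := y0 b; omega
          · have := x2 a; have := y2 b; omega
        · have := x1 h'
          rcases (show y % 4 = 0 ∨ y % 4 = 2 by omega) with a | a
          · have := y0 a; omega
          · have := y2 a; omega
      · exact h
    have hy8 := y1 hy
    have hx : x % 2 = 0 := by
      rcases Int.emod_two_eq_zero_or_one x with h' | h'
      · exact h'
      · have := x1 h'; omega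
    have hev : p % 8 = 3 → ((-1 : ℚ)) ^ ((3 * p - 1) / 4) = 1 := by
      intro h
      obtain ⟨c, hc⟩ : ∃ c, (3 * p - 1) / 4 = 2 * c := ⟨(3 * p - 1) / 8, by omega⟩
      rw [hc, pow_mul]; norm_num
    have hod : p % 8 = 7 → ((-1 : ℚ)) ^ ((3 * p - 1) / 4) = -1 := by
      intro h
      obtain ⟨c, hc⟩ : ∃ c, (3 * p - 1) / 4 = 2 * c + 1 := ⟨(3 * p - 1) / 8, by omega⟩
      rw [hc, pow_succ, pow_mul]; norm_num
    have key : (legendreSym p 2 : ℚ) * (-1) ^ ((y - 1) / 2) = -(η : ℚ) ∧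
        (-1) ^ ((3 * p - 1) / 4) * (η : ℚ) = (-1) ^ ((y - 1) / 2) := by
      rcases (show x % 4 = 0 ∨ x % 4 = 2 by omega) with b | b
      · have hb := x0 b
        have hp8 : p % 8 = 7 := by omega
        have hη' : (η : ℚ) = -(-1) ^ ((y - 1) / 2) := by
          rcases sgn y hy with ⟨a1, a2⟩ | ⟨a1, a2⟩ <;> rcases hη with e | e <;> rw [a2, e] <;>
          first
          | (exfalso; rw [e] at hη4; omega)
          | norm_num
        rw [tl1 (Or.inr hp8), hod hp8, hη']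
        norm_num
      · have hb := x2 b
        have hp8 : p % 8 = 3 := by omega
        have hη' : (η : ℚ) = (-1) ^ ((y - 1) / 2) := by
          rcases sgn y hy with ⟨a1, a2⟩ | ⟨a1, a2⟩ <;> rcases hη with e | e <;> rw [a2, e] <;>
          first
          | (exfalso; rw [e] at hη4; omega)
          | norm_num
        rw [tl2 (Or.inl hp8), hev hp8, hη']
        norm_num
    rw [key.2] at c2
    rw [key.1]
    refine ⟨c1, ?_⟩
    have e : 3 / 4 * (-1 : ℚ) ^ ((y - 1) / 2) * (7 * (y : ℚ) - p / (4 * y)) =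
        (-1) ^ ((y - 1) / 2) * (3 / 4 * (7 * (y : ℚ) - p / (4 * y))) := by ring
    rw [e]
    exact c2

end Pool.Agent.Results.MP_84b294_nt.Full
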